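import Mathlib
import Pool.Agent.H355R2.APBQ1

/-! Bounded multiples of primes represent every integer as a difference: the combinatorial part. -/

namespace Pool.Agent.H430R2.Maillet

open Finset

/-- a divisor `m` of `K` with `N = m N'`, such that a prime dividing both `N'` and `K`
divides `N'` to a higher power than `K`. -/
theorem exists_part (K N : ℕ) (hK : 0 < K) (hN : 0 < N) :
    ∃ m N' : ℕ, N = m * N' ∧ m ∣ K ∧
      ∀ l : ℕ, l.Prime → l ∣ N' → l ∣ K → ∃ v N'' : ℕ, N' = l ^ v * N'' ∧ ¬ l ∣ N'' ∧ ¬ l ^ v ∣ K := by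
  classical
  set D := K.divisors.filter (fun m => m ∣ N ∧ Nat.Coprime m (N / m)) with hD
  have hne : D.Nonempty := ⟨1, by
    rw [hD, mem_filter, Nat.mem_divisors]
    exact ⟨⟨one_dvd _, hK.ne'⟩, one_dvd _, Nat.coprime_one_left _⟩⟩
  obtain ⟨m, hm, hmax⟩ := Finset.exists_max_image D id hne
  rw [hD, mem_filter, Nat.mem_divisors] at hm
  obtain ⟨⟨hmK, _⟩, ⟨N', rfl⟩, hcop⟩ := hm
  have hm0 : 0 < m := Nat.pos_of_mul_pos_right hN
  have hN'0 : 0 < N' := Nat.pos_of_mul_pos_left hN
  rw [Nat.mul_div_cancel_left _ hm0] at hcop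
  refine ⟨m, N', rfl, hmK, ?_⟩
  intro l hl hlN' hlK
  obtain ⟨v, N'', hnd, heq⟩ := Nat.exists_eq_pow_mul_and_not_dvd hN'0.ne' l hl.ne_one
  refine ⟨v, N'', heq, hnd, ?_⟩
  intro hv
  have hlm : Nat.Coprime m (l ^ v) := by
    apply hcop.coprime_dvd_right
    rw [heq]; exact dvd_mul_right _ _
  have h1 : m * l ^ v ∈ D := by
    rw [hD, mem_filter, Nat.mem_divisors]
    refine ⟨⟨hlm.mul_dvd_of_dvd_of_dvd hmK hv, hK.ne'⟩, ?_, ?_⟩
    · rw [heq, ← mul_assoc]; exact dvd_mul_right _ _
    · have h2 : m * N' / (m * l ^ v) = N'' := by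
        rw [heq, ← mul_assoc]
        exact Nat.mul_div_cancel_left _ (Nat.mul_pos hm0 (pow_pos hl.pos _))
      rw [h2]
      apply Nat.Coprime.mul_left
      · apply hcop.coprime_dvd_right
        rw [heq]; exact dvd_mul_left _ _
      · exact Nat.Coprime.pow_left _ ((Nat.Prime.coprime_iff_not_dvd hl).2 hnd)
  have h2 := hmax _ h1
  simp only [id] at h2
  have hv1 : 1 ≤ v := by
    rcases Nat.eq_zero_or_pos v with h | h
    · rw [h] at heq
      rw [pow_zero, one_mul] at heq
      rw [heq] at hlN'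
      exact absurd hlN' hnd
    · exact h
  have h3 : 2 ≤ l ^ v := hl.two_le.trans (Nat.le_self_pow (by omega) l)
  nlinarith

/-- a strictly increasing sequence with `f j - f i ∣ f i` -/
theorem exists_seq (k : ℕ) : ∃ f : ℕ → ℕ, (∀ i ≤ k, 0 < f i) ∧
    (∀ i j, i < j → j ≤ k → f i < f j) ∧ (∀ i j, i < j → j ≤ k → (f j - f i) ∣ f i) := by
  obtain ⟨f, h1, _, h3, h4, _⟩ := Pool.Agent.H355R2.APBQ.exists_seq 1 one_pos (k + 1) ∅
    (by simp) (by simp) (by simp) k le_rfl
  exact ⟨f, fun i hi => (h1 i hi).1, h3, h4⟩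

/-- data attached to `N`: the forms -/
theorem forms (k : ℕ) : ∃ C : ℕ, ∀ N : ℕ, 1 ≤ N → ∃ (A B : Fin k → ℕ) (a b : Fin k → Fin k → ℕ),
    (∀ i, 0 < A i) ∧ (∀ i, 0 < B i) ∧ Function.Injective (fun i => (A i, (B i : ℤ))) ∧
    (∀ p : ℕ, p.Prime → ∃ n : ℤ, ∀ i, ¬ (p : ℤ) ∣ A i * n + B i) ∧
    (∀ i j, i < j → 1 ≤ a i j ∧ a i j ≤ C ∧ 1 ≤ b i j ∧ b i j ≤ C) ∧
    (∀ i j, i < j → ∀ n : ℕ, a i j * (A i * n + B i) = b i j * (A j * n + B j) + N) := by
  classical
  obtain ⟨f, hf0, hf1, hf2⟩ := exists_seq k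
  set K := ∏ i ∈ range (k + 1), f i with hK
  have hKpos : 0 < K := prod_pos fun i hi => hf0 i (by have := mem_range.1 hi; omega)
  have hfK : ∀ i : Fin k, f i ∣ K := fun i =>
    dvd_prod_of_mem f (mem_range.2 (by have := i.2; omega))
  refine ⟨K * K * K, ?_⟩
  intro N hN
  obtain ⟨m, N', hNm, hmK, hl⟩ := exists_part K N hKpos hN
  have hm0 : 0 < m := Nat.pos_of_dvd_of_pos hmK hKpos
  have hN'0 : 0 < N' := by
    rcases Nat.eq_zero_or_pos N' with h | h
    · rw [h, mul_zero] at hNm; omega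
    · exact h
  -- the gcds
  set h : Fin k → ℕ := fun i => Nat.gcd (f i) N' with hh
  have hfpos : ∀ i : Fin k, 0 < f i := fun i => hf0 i i.2.le
  have hhpos : ∀ i, 0 < h i := fun i => Nat.gcd_pos_of_pos_left _ (hfpos i)
  have hhf : ∀ i, h i ∣ f i := fun i => Nat.gcd_dvd_left _ _
  have hhN : ∀ i, h i ∣ N' := fun i => Nat.gcd_dvd_right _ _
  set A : Fin k → ℕ := fun i => f i / h i with hA
  set B : Fin k → ℕ := fun i => N' / h i with hB
  have hAf : ∀ i, h i * A i = f i := fun i => Nat.mul_div_cancel' (hhf i)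
  have hBN : ∀ i, h i * B i = N' := fun i => Nat.mul_div_cancel' (hhN i)
  have hcop : ∀ i, Nat.Coprime (A i) (B i) := fun i => Nat.coprime_div_gcd_div_gcd (hhpos i)
  have hApos : ∀ i, 0 < A i := fun i => Nat.pos_of_mul_pos_left (by
    have := hfpos i
    rw [← hAf i] at this
    exact this)
  have hBpos : ∀ i, 0 < B i := fun i => Nat.pos_of_mul_pos_left (by
    have := hN'0
    rw [← hBN i] at this
    exact this)
  set a : Fin k → Fin k → ℕ := fun i j => m * ((f j / (f j - f i)) * h i) with ha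
  set b : Fin k → Fin k → ℕ := fun i j => m * ((f i / (f j - f i)) * h j) with hb
  refine ⟨A, B, a, b, hApos, hBpos, ?_, ?_, ?_, ?_⟩
  · -- injectivity
    intro i j hij
    simp only [Prod.mk.injEq] at hij
    obtain ⟨h1, h2⟩ := hij
    have h2' : B i = B j := by exact_mod_cast h2
    have h3 : h i = h j := by
      have h4 := hBN i
      have h5 := hBN j
      rw [← h5, h2'] at h4
      exact Nat.eq_of_mul_eq_mul_right (hBpos j) h4
    have h4 : f i = f j := by rw [← hAf i, ← hAf j, h1, h3]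
    rcases lt_trichotomy i j with h5 | h5 | h5
    · have := hf1 i j h5 j.2.le
      omega
    · exact h5
    · have := hf1 j i h5 i.2.le
      omega
  · -- admissibility
    intro p hp
    by_cases hpN : p ∣ N'
    · -- n = 1
      have hpB : ∀ i, p ∣ B i := by
        intro i
        by_cases hpK : p ∣ K
        · obtain ⟨v, N'', h1, h2, h3⟩ := hl p hp hpN hpK
          by_contra hpB
          have h4 : Nat.Coprime (p ^ v) (B i) :=
            Nat.Coprime.pow_left _ ((Nat.Prime.coprime_iff_not_dvd hp).2 hpB)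
          have h5 : p ^ v ∣ h i * B i := by
            rw [hBN i, h1]; exact dvd_mul_right _ _
          have h6 : p ^ v ∣ h i := h4.dvd_of_dvd_mul_right h5
          exact h3 (h6.trans ((hhf i).trans (hfK i)))
        · have h5 : p ∣ h i * B i := by rw [hBN i]; exact hpN
          rcases (hp.dvd_mul).1 h5 with h6 | h6
          · exact absurd (h6.trans ((hhf i).trans (hfK i))) hpK
          · exact h6
      refine ⟨1, fun i hdvd => ?_⟩
      rw [mul_one] at hdvd
      have h1 : (p : ℤ) ∣ (A i : ℤ) :=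
        (dvd_add_left (Int.natCast_dvd_natCast.2 (hpB i))).1 hdvd
      have h2 : p ∣ A i := Int.natCast_dvd_natCast.1 h1
      have h3 : p ∣ Nat.gcd (A i) (B i) := Nat.dvd_gcd h2 (hpB i)
      rw [hcop i] at h3
      exact hp.one_lt.ne' (Nat.dvd_one.1 h3)
    · refine ⟨0, fun i hdvd => hpN ?_⟩
      rw [mul_zero, zero_add] at hdvd
      have h1 : p ∣ B i := Int.natCast_dvd_natCast.1 hdvd
      rw [← hBN i]
      exact h1.mul_left _
  · -- bounds
    intro i j hij
    have h1 := hf1 i j hij j.2.le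
    have h2 := hf2 i j hij j.2.le
    have h3 : (f j - f i) ∣ f j := by
      have := dvd_add h2 (dvd_refl (f j - f i))
      rwa [show f i + (f j - f i) = f j by omega] at this
    have hg : 0 < f j - f i := by omega
    have q1 : 0 < f j / (f j - f i) := Nat.div_pos (Nat.le_of_dvd (hfpos j) h3) hg
    have q2 : 0 < f i / (f j - f i) := Nat.div_pos (Nat.le_of_dvd (hfpos i) h2) hg
    have q3 : f j / (f j - f i) ≤ K := (Nat.div_le_self _ _).trans (Nat.le_of_dvd hKpos (hfK j))
    have q4 : f i / (f j - f i) ≤ K := (Nat.div_le_self _ _).trans (Nat.le_of_dvd hKpos (hfK i))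
    have q5 : ∀ i, h i ≤ K := fun i => Nat.le_of_dvd hKpos ((hhf i).trans (hfK i))
    have q6 : m ≤ K := Nat.le_of_dvd hKpos hmK
    refine ⟨Nat.mul_pos hm0 (Nat.mul_pos q1 (hhpos i)), ?_,
      Nat.mul_pos hm0 (Nat.mul_pos q2 (hhpos j)), ?_⟩
    · rw [mul_assoc]
      exact Nat.mul_le_mul q6 (Nat.mul_le_mul q3 (q5 i))
    · rw [mul_assoc]
      exact Nat.mul_le_mul q6 (Nat.mul_le_mul q4 (q5 j))
  · -- identity
    intro i j hij n
    have h1 := hf1 i j hij j.2.le
    obtain ⟨r, hr⟩ := hf2 i j hij j.2.le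
    set g := f j - f i with hg
    have hg0 : 0 < g := by omega
    have hfj : f j = g * (r + 1) := by
      rw [mul_add, mul_one, ← hr]; omega
    have e1 : f j / g = r + 1 := by rw [hfj]; exact Nat.mul_div_cancel_left _ hg0
    have e2 : f i / g = r := by rw [hr]; exact Nat.mul_div_cancel_left _ hg0
    have e3 : h i * (A i * n + B i) = f i * n + N' := by
      rw [mul_add, hBN i, ← mul_assoc, hAf i]
    have e4 : h j * (A j * n + B j) = f j * n + N' := by
      rw [mul_add, hBN j, ← mul_assoc, hAf j]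
    show m * ((f j / g) * h i) * (A i * n + B i) = m * ((f i / g) * h j) * (A j * n + B j) + N
    rw [e1, e2, hNm]
    calc m * ((r + 1) * h i) * (A i * n + B i) = m * ((r + 1) * (h i * (A i * n + B i))) := by ring
      _ = m * (r * (h j * (A j * n + B j)) + N') := by
          rw [e3, e4, hfj, hr]; ring
      _ = _ := by ring

end Pool.Agent.H430R2.Maillet
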