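import Pool.Agent.H361R2.PP.Iface

/-!
Task PP-EQI of helper361 (project PP): equidistribution of the integers in residue classes.
-/

set_option autoImplicit false

open Finset

namespace Pool.Agent.H430R2.PPEqi

open Pool.Agent.H361R2.PP

theorem modEq_prod (D : Finset ℕ) (hD : ∀ p ∈ D, p.Prime) (n r : ℕ) :
    (∀ p ∈ D, n % p = r % p) ↔ n ≡ r [MOD ∏ p ∈ D, p] := by
  induction D using Finset.induction_on with
  | empty => simp [Nat.modEq_one]
  | insert a D ha ih =>
    rw [Finset.prod_insert ha, ← Nat.modEq_and_modEq_iff_modEq_mul]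
    · have ih' := ih (fun p hp => hD p (Finset.mem_insert_of_mem hp))
      rw [← ih']
      constructor
      · intro h
        exact ⟨h a (Finset.mem_insert_self _ _), fun p hp => h p (Finset.mem_insert_of_mem hp)⟩
      · rintro ⟨h1, h2⟩ p hp
        rcases Finset.mem_insert.mp hp with rfl | hp
        · exact h1
        · exact h2 p hp
    · rw [Nat.coprime_prod_right_iff]
      intro q hq
      rw [Nat.coprime_primes (hD a (Finset.mem_insert_self _ _)) (hD q (Finset.mem_insert_of_mem hq))]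
      rintro rfl
      exact ha hq

theorem card_class (X M c : ℕ) (hM : 0 < M) :
    |(((Ico X (2 * X)).filter (fun n => n ≡ c [MOD M])).card : ℝ) - (X : ℝ) / M| ≤ 1 := by
  have h := Nat.Ico_filter_modEq_card X (2 * X) hM c
  have hM' : (0 : ℚ) < M := by exact_mod_cast hM
  have h1 : (((Ico X (2 * X)).filter (fun n => n ≡ c [MOD M])).card : ℤ) =
      ⌈(((2 * X : ℕ) : ℚ) - c) / M⌉ - ⌈((X : ℚ) - c) / M⌉ := by
    rw [h, max_eq_left]
    rw [sub_nonneg]
    apply Int.ceil_le_ceil
    apply div_le_div_of_nonneg_right _ hM'.le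
    push_cast
    have : (0 : ℚ) ≤ X := Nat.cast_nonneg X
    linarith
  have h2 : |((((Ico X (2 * X)).filter (fun n => n ≡ c [MOD M])).card : ℤ) : ℚ) - (X : ℚ) / M| ≤ 1 := by
    rw [h1]
    push_cast
    have e1 := Int.le_ceil ((2 * (X : ℚ) - c) / M)
    have e2 := Int.ceil_lt_add_one ((2 * (X : ℚ) - c) / M)
    have e3 := Int.le_ceil (((X : ℚ) - c) / M)
    have e4 := Int.ceil_lt_add_one (((X : ℚ) - c) / M)
    have e5 : (2 * (X : ℚ) - c) / M - ((X : ℚ) - c) / M = X / M := by
      rw [← sub_div]; congr 1; ring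
    rw [abs_le]
    constructor <;> linarith
  have h3 : ((|((((Ico X (2 * X)).filter (fun n => n ≡ c [MOD M])).card : ℤ) : ℚ) - (X : ℚ) / M| : ℚ) : ℝ) ≤ ((1 : ℚ) : ℝ) := by
    exact_mod_cast h2
  push_cast at h3
  simpa using h3

theorem eqd_part (X b : ℕ) (hb : b < Wm X) :
    Eqd none ((PX X).filter (fun p : ℕ => (p : ℝ) ≤ (X : ℝ) ^ (1 / 2 : ℝ)))
      ((Ico X (2 * X)).filter (fun n => n % Wm X = b)) ((X : ℝ) / Wm X) (fun _ => 1) := by
  refine ⟨fun n _ p _ a ha => by simp at ha, fun _ => zero_le_one, fun D hD r _ => ?_⟩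
  have hW : 0 < Wm X := primorial_pos _
  have hprime : ∀ p ∈ D, p.Prime ∧ HH X < p := by
    intro p hp
    have := hD hp
    simp only [PX, mem_filter] at this
    exact this.1.2
  have hcop : (Wm X).Coprime (∏ p ∈ D, p) := by
    rw [Nat.coprime_prod_right_iff]
    intro p hp
    unfold Wm primorial
    rw [Nat.coprime_prod_left_iff]
    intro q hq
    rw [mem_filter, mem_range] at hq
    rw [Nat.coprime_primes hq.2 (hprime p hp).1]
    have := (hprime p hp).2
    omega
  have hpos : 0 < Wm X * ∏ p ∈ D, p :=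
    Nat.mul_pos hW (Finset.prod_pos (fun p hp => (hprime p hp).1.pos))
  have hset : ((Ico X (2 * X)).filter (fun n => n % Wm X = b)).filter
      (fun n => ∀ p ∈ D, n % p = r % p) =
      (Ico X (2 * X)).filter
        (fun n => n ≡ (Nat.chineseRemainder hcop b r : ℕ) [MOD Wm X * ∏ p ∈ D, p]) := by
    rw [filter_filter]
    apply filter_congr
    intro n _
    rw [modEq_prod D (fun p hp => (hprime p hp).1), ← Nat.modEq_and_modEq_iff_modEq_mul hcop]
    have e1 := (Nat.chineseRemainder hcop b r).2.1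
    have e2 := (Nat.chineseRemainder hcop b r).2.2
    constructor
    · rintro ⟨h1, h2⟩
      refine ⟨?_, h2.trans e2.symm⟩
      refine Nat.ModEq.trans ?_ e1.symm
      unfold Nat.ModEq
      rw [h1, Nat.mod_eq_of_lt hb]
    · rintro ⟨h1, h2⟩
      refine ⟨?_, h2.trans e2⟩
      have := h1.trans e1
      unfold Nat.ModEq at this
      rw [this, Nat.mod_eq_of_lt hb]
  rw [hset]
  have := card_class X _ (Nat.chineseRemainder hcop b r : ℕ) hpos
  have e : ∏ p ∈ D, ph none p = ((∏ p ∈ D, p : ℕ) : ℝ) := by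
    push_cast
    apply prod_congr rfl
    intro p _
    simp [ph]
  rw [e, div_div]
  push_cast at this ⊢
  exact this

theorem card_le (X : ℕ) (Y : ℝ) (hY : 0 ≤ Y) :
    (((PX X).powerset.filter (fun D : Finset ℕ => ∏ p ∈ D, (p : ℝ) ≤ Y)).card : ℝ) ≤ Y := by
  have h : ((PX X).powerset.filter (fun D : Finset ℕ => ∏ p ∈ D, (p : ℝ) ≤ Y)).card ≤
      (Icc 1 ⌊Y⌋₊).card := by
    apply card_le_card_of_injOn (fun D => ∏ p ∈ D, p)
    · intro D hD
      rw [mem_coe, mem_filter, mem_powerset] at hD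
      rw [mem_coe, mem_Icc]
      constructor
      · refine Nat.succ_le_of_lt (Finset.prod_pos ?_)
        intro p hp
        have := hD.1 hp
        simp only [PX, mem_filter] at this
        exact this.2.1.pos
      · apply Nat.le_floor
        push_cast
        exact hD.2
    · intro D hD D' hD' he
      rw [mem_coe, mem_filter, mem_powerset] at hD hD'
      have h1 : (∏ p ∈ D, p).primeFactors = D := Nat.primeFactors_prod (fun p hp => by
        have := hD.1 hp
        simp only [PX, mem_filter] at this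
        exact this.2.1)
      have h2 : (∏ p ∈ D', p).primeFactors = D' := Nat.primeFactors_prod (fun p hp => by
        have := hD'.1 hp
        simp only [PX, mem_filter] at this
        exact this.2.1)
      simp only at he
      rw [← h1, he, h2]
  rw [Nat.card_Icc, Nat.add_sub_cancel] at h
  calc (((PX X).powerset.filter (fun D : Finset ℕ => ∏ p ∈ D, (p : ℝ) ≤ Y)).card : ℝ)
      ≤ (⌊Y⌋₊ : ℝ) := by exact_mod_cast h
    _ ≤ Y := Nat.floor_le hY

theorem wm_le (X : ℕ) (hX : 1 ≤ Real.log (Real.log X)) : (Wm X : ℝ) ≤ Real.log X := by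
  have hlog : 0 < Real.log X := by
    by_contra h
    push Not at h
    have h2 : Real.log X = 0 := le_antisymm h (Real.log_natCast_nonneg X)
    rw [h2, Real.log_zero] at hX
    linarith
  have h1 : (Wm X : ℝ) ≤ 4 ^ HH X := by
    exact_mod_cast primorial_le_four_pow (HH X)
  have h2 : (HH X : ℝ) ≤ Real.log (Real.log X) / 4 := Nat.floor_le (by linarith)
  have h3 : Real.log 4 ≤ 2 := by
    have := Real.log_le_sub_one_of_pos (show (0:ℝ) < 2 by norm_num)
    have h4 : Real.log 4 = 2 * Real.log 2 := by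
      rw [show (4:ℝ) = 2 ^ 2 by norm_num, Real.log_pow]; norm_num
    rw [h4]; linarith
  have h5 : (4 : ℝ) ^ HH X ≤ Real.log X := by
    rw [← Real.log_le_log_iff (by positivity) hlog, Real.log_pow]
    have h6 : 0 ≤ Real.log 4 := Real.log_nonneg (by norm_num)
    nlinarith
  exact h1.trans h5

theorem eqInt : EqInt := by
  intro K A θ hθ
  have hlog : Filter.Tendsto (fun X : ℕ => Real.log (X : ℝ)) Filter.atTop Filter.atTop :=
    Real.tendsto_log_atTop.comp tendsto_natCast_atTop_atTop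
  have hll : Filter.Tendsto (fun X : ℕ => Real.log (Real.log (X : ℝ))) Filter.atTop Filter.atTop :=
    Real.tendsto_log_atTop.comp hlog
  have e1 := hll.eventually (Filter.eventually_ge_atTop (4 * ((K : ℝ) ^ (4 / θ))))
  have e2 := hll.eventually (Filter.eventually_ge_atTop (1 : ℝ))
  have e3 : ∀ᶠ X : ℕ in Filter.atTop, Real.log (X : ℝ) ^ ((A : ℝ) + 1) ≤ (X : ℝ) ^ (3 * θ / 4) := by
    have := (isLittleO_log_rpow_rpow_atTop ((A : ℝ) + 1) (show 0 < 3 * θ / 4 by linarith)).bound
      (show (0:ℝ) < 1 by norm_num)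
    have h2 := tendsto_natCast_atTop_atTop (R := ℝ) |>.eventually this
    filter_upwards [h2, Filter.eventually_ge_atTop 1] with X hX hX1
    rw [one_mul, Real.norm_of_nonneg, Real.norm_of_nonneg] at hX
    · exact hX
    · positivity
    · exact Real.rpow_nonneg (Real.log_natCast_nonneg X) _
  obtain ⟨X₀, hX₀⟩ := Filter.eventually_atTop.mp (e1.and (e2.and (e3.and (Filter.eventually_ge_atTop 3))))
  refine ⟨X₀, fun X hX b hb => ⟨fun _ => 1, eqd_part X b hb, ?_⟩⟩
  obtain ⟨h1, h2, h3, h4⟩ := hX₀ X hX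
  have hXpos : (0 : ℝ) < X := by
    have : 0 < X := by omega
    exact_mod_cast this
  have hX1 : (1 : ℝ) ≤ X := by
    have : 1 ≤ X := by omega
    exact_mod_cast this
  have hlogpos : 0 < Real.log (X : ℝ) := by
    by_contra h
    push Not at h
    have h5 : Real.log X = 0 := le_antisymm h (Real.log_natCast_nonneg X)
    rw [h5, Real.log_zero] at h2
    linarith
  have hterm : ∀ D ∈ (PX X).powerset.filter
      (fun D : Finset ℕ => ∏ p ∈ D, (p : ℝ) ≤ (X : ℝ) ^ (1 - θ)),
      (K : ℝ) ^ D.card * 1 ≤ (X : ℝ) ^ (θ / 4) := by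
    intro D hD
    rw [mem_filter, mem_powerset] at hD
    rw [mul_one]
    have hp : ∀ p ∈ D, (K : ℝ) ≤ (p : ℝ) ^ (θ / 4) := by
      intro p hp
      have := hD.1 hp
      simp only [PX, mem_filter] at this
      have h6 : Real.log (Real.log X) / 4 < p := by
        have := this.2.2
        unfold HH at this
        exact (Nat.floor_lt (by linarith)).mp this
      have h7 : (K : ℝ) ^ (4 / θ) ≤ p := by linarith
      have h8 : ((K : ℝ) ^ (4 / θ)) ^ (θ / 4) ≤ (p : ℝ) ^ (θ / 4) :=
        Real.rpow_le_rpow (Real.rpow_nonneg (Nat.cast_nonneg K) _) h7 (by linarith)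
      rw [← Real.rpow_mul (Nat.cast_nonneg K)] at h8
      have h9 : 4 / θ * (θ / 4) = 1 := by field_simp
      rwa [h9, Real.rpow_one] at h8
    have hpr : (1 : ℝ) ≤ ∏ p ∈ D, (p : ℝ) := by
      have : ((1 : ℕ) : ℝ) ≤ ((∏ p ∈ D, p : ℕ) : ℝ) := by
        rw [Nat.cast_le]
        refine Nat.succ_le_of_lt (Finset.prod_pos ?_)
        intro p hp
        have := hD.1 hp
        simp only [PX, mem_filter] at this
        exact this.2.1.pos
      push_cast at this
      exact this
    calc (K : ℝ) ^ D.card = ∏ p ∈ D, (K : ℝ) := by rw [prod_const]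
      _ ≤ ∏ p ∈ D, (p : ℝ) ^ (θ / 4) := prod_le_prod (fun _ _ => Nat.cast_nonneg K) hp
      _ = (∏ p ∈ D, (p : ℝ)) ^ (θ / 4) := by
          rw [← Real.finsetProd_rpow]
          intro p _
          exact Nat.cast_nonneg p
      _ ≤ ((X : ℝ)) ^ (θ / 4) := by
          apply Real.rpow_le_rpow (by linarith) _ (by linarith)
          refine hD.2.trans ?_
          calc (X : ℝ) ^ (1 - θ) ≤ (X : ℝ) ^ (1 : ℝ) :=
                Real.rpow_le_rpow_of_exponent_le hX1 (by linarith)
            _ = X := Real.rpow_one _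
  have hcard := card_le X ((X : ℝ) ^ (1 - θ)) (Real.rpow_nonneg (Nat.cast_nonneg X) _)
  have hsum : ∑ D ∈ (PX X).powerset.filter
      (fun D : Finset ℕ => ∏ p ∈ D, (p : ℝ) ≤ (X : ℝ) ^ (1 - θ)), (K : ℝ) ^ D.card * 1 ≤
      (X : ℝ) ^ (1 - θ) * (X : ℝ) ^ (θ / 4) := by
    refine (sum_le_card_nsmul _ _ _ hterm).trans ?_
    rw [nsmul_eq_mul]
    exact mul_le_mul_of_nonneg_right hcard (Real.rpow_nonneg (Nat.cast_nonneg X) _)
  refine hsum.trans ?_
  have hWpos : (0 : ℝ) < Wm X := by exact_mod_cast primorial_pos _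
  have hWle := wm_le X h2
  rw [div_div, le_div_iff₀ (by positivity)]
  calc (X : ℝ) ^ (1 - θ) * (X : ℝ) ^ (θ / 4) * ((Wm X : ℝ) * Real.log X ^ A)
      ≤ (X : ℝ) ^ (1 - θ) * (X : ℝ) ^ (θ / 4) * (Real.log X * Real.log X ^ A) := by
        gcongr
    _ = (X : ℝ) ^ (1 - θ) * (X : ℝ) ^ (θ / 4) * (Real.log X ^ ((A : ℝ) + 1)) := by
        rw [Real.rpow_add_one hlogpos.ne', Real.rpow_natCast]
        ring
    _ ≤ (X : ℝ) ^ (1 - θ) * (X : ℝ) ^ (θ / 4) * (X : ℝ) ^ (3 * θ / 4) := by
        gcongr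
    _ = X := by
        rw [← Real.rpow_add hXpos, ← Real.rpow_add hXpos]
        have : 1 - θ + θ / 4 + 3 * θ / 4 = 1 := by ring
        rw [this, Real.rpow_one]

end Pool.Agent.H430R2.PPEqi
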